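import Mathlib

/-!
For every prime `p ≥ 7` with `p % 4 = 3` the incidence graph of the Paley design on `ZMod p`
(for `p = 7` it is the Heawood graph) has an arc-transitive group of automorphisms with an
irreducible subspace that lies in no eigenspace.
-/

namespace Pool.Agent.Results.MP_63f2bb_co.PaleyIncidence

open SimpleGraph

/-- The action of an automorphism on vectors: `(σ x) (σ i) = x i`. -/
def act {V : Type} {G : SimpleGraph V} (σ : G ≃g G) (x : V → ℝ) : V → ℝ := fun v => x (σ.symm v)

/-- The subgroup `S` acts transitively on arcs. -/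
def ArcTransitive {V : Type} {G : SimpleGraph V} (S : Subgroup (G ≃g G)) : Prop :=
  ∀ i j k l : V, G.Adj i j → G.Adj k l → ∃ σ ∈ S, σ i = k ∧ σ j = l

/-- The subspace `U` is invariant under `S`. -/
def Invariant {V : Type} {G : SimpleGraph V} (S : Subgroup (G ≃g G))
    (U : Submodule ℝ (V → ℝ)) : Prop :=
  ∀ σ ∈ S, ∀ x ∈ U, act σ x ∈ U

/-- The subspace `W` is irreducible under `S`. -/
def Irreducible {V : Type} {G : SimpleGraph V} (S : Subgroup (G ≃g G))
    (W : Submodule ℝ (V → ℝ)) : Prop :=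
  W ≠ ⊥ ∧ Invariant S W ∧ ∀ U : Submodule ℝ (V → ℝ), U ≤ W → Invariant S U → U = ⊥ ∨ U = W

section

variable {p : ℕ} [Fact p.Prime]

/-- The sign of a side. -/
def ε (i : Bool) : ℤ := if i then -1 else 1

/-- The quadratic character of `ZMod p`. -/
noncomputable def χ (x : ZMod p) : ℤ := quadraticChar (ZMod p) x

theorem χ_mul (x y : ZMod p) : χ (x * y) = χ x * χ y := map_mul (quadraticChar (ZMod p)) x y

theorem χ_one : χ (1 : ZMod p) = 1 := map_one (quadraticChar (ZMod p))

theorem χ_neg_one (hp : p % 4 = 3) : χ (-1 : ZMod p) = -1 := by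
  have h1 : ¬ IsSquare (-1 : ZMod p) := by
    rw [ZMod.exists_sq_eq_neg_one_iff]
    simpa using hp
  exact quadraticChar_neg_one_iff_not_isSquare.2 h1

theorem χ_neg (hp : p % 4 = 3) (x : ZMod p) : χ (-x) = - χ x := by
  rw [show -x = -1 * x by ring, χ_mul, χ_neg_one hp]; ring

theorem χ_unit (a : (ZMod p)ˣ) : χ (a : ZMod p) = 1 ∨ χ (a : ZMod p) = -1 := by
  have h := quadraticChar_dichotomy (F := ZMod p) (a := (a : ZMod p)) a.ne_zero
  exact h

/-- The incidence graph of the Paley design. -/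
noncomputable def G (hp : p % 4 = 3) : SimpleGraph (ZMod p × Bool) where
  Adj u v := u.2 ≠ v.2 ∧ χ (v.1 - u.1) = ε u.2
  symm := ⟨by
    rintro ⟨x, i⟩ ⟨y, j⟩ ⟨h1, h2⟩
    refine ⟨h1.symm, ?_⟩
    simp only at h1 h2 ⊢
    rw [show x - y = -(y - x) by ring, χ_neg hp, h2]
    cases i <;> cases j <;> simp_all [ε]⟩
  loopless := ⟨by
    rintro ⟨x, i⟩ ⟨h1, h2⟩
    exact h1 rfl⟩

theorem adj_iff (hp : p % 4 = 3) (u v : ZMod p × Bool) :
    (G hp).Adj u v ↔ u.2 ≠ v.2 ∧ χ (v.1 - u.1) = ε u.2 := Iff.rfl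

/-- Whether multiplication by `a` interchanges the sides. -/
noncomputable def flip (a : (ZMod p)ˣ) : Bool := decide (χ (a : ZMod p) = -1)

theorem ε_xor (i : Bool) (a : (ZMod p)ˣ) : ε (xor i (flip a)) = χ (a : ZMod p) * ε i := by
  rcases χ_unit a with h | h <;> cases i <;> simp [ε, flip, h]

/-- The automorphism `x ↦ a x + b`. -/
noncomputable def T (hp : p % 4 = 3) (a : (ZMod p)ˣ) (b : ZMod p) : G hp ≃g G hp where
  toFun u := (a * u.1 + b, xor u.2 (flip a))
  invFun u := (↑(a⁻¹) * (u.1 - b), xor u.2 (flip a))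
  left_inv := by
    rintro ⟨x, i⟩
    refine Prod.ext ?_ ?_
    · show ((a⁻¹ : (ZMod p)ˣ) : ZMod p) * (a * x + b - b) = x
      rw [add_sub_cancel_right, ← mul_assoc, Units.inv_mul, one_mul]
    · show xor (xor i (flip a)) (flip a) = i
      cases i <;> cases flip a <;> rfl
  right_inv := by
    rintro ⟨x, i⟩
    refine Prod.ext ?_ ?_
    · show (a : ZMod p) * (((a⁻¹ : (ZMod p)ˣ) : ZMod p) * (x - b)) + b = x
      rw [← mul_assoc, Units.mul_inv, one_mul, sub_add_cancel]
    · show xor (xor i (flip a)) (flip a) = i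
      cases i <;> cases flip a <;> rfl
  map_rel_iff' := by
    rintro ⟨x, i⟩ ⟨y, j⟩
    simp only [Equiv.coe_fn_mk, adj_iff]
    rw [show (a : ZMod p) * y + b - (a * x + b) = a * (y - x) by ring, χ_mul, ε_xor]
    have hne : (xor i (flip a) ≠ xor j (flip a)) ↔ i ≠ j := by
      cases i <;> cases j <;> simp
    rw [hne]
    have h0 : χ (a : ZMod p) ≠ 0 := by
      rcases χ_unit a with h | h <;> rw [h] <;> decide
    constructor
    · rintro ⟨h1, h2⟩
      exact ⟨h1, mul_left_cancel₀ h0 h2⟩
    · rintro ⟨h1, h2⟩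
      exact ⟨h1, by rw [h2]⟩

theorem T_apply (hp : p % 4 = 3) (a : (ZMod p)ˣ) (b : ZMod p) (u : ZMod p × Bool) :
    T hp a b u = (a * u.1 + b, xor u.2 (flip a)) := rfl

theorem T_symm_fst (hp : p % 4 = 3) (a : (ZMod p)ˣ) (b : ZMod p) (u : ZMod p × Bool) :
    ((T hp a b).symm u).1 = ↑(a⁻¹) * (u.1 - b) := rfl

/-- Automorphisms preserving the pairs of vertices with equal first coordinate. -/
noncomputable def S (hp : p % 4 = 3) : Subgroup (G hp ≃g G hp) where
  carrier := {σ | ∀ u v, (σ u).1 = (σ v).1 ↔ u.1 = v.1}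
  mul_mem' := by
    intro σ τ h1 h2 u v
    show (σ (τ u)).1 = (σ (τ v)).1 ↔ _
    rw [h1, h2]
  one_mem' := by
    intro u v
    exact Iff.rfl
  inv_mem' := by
    intro σ h u v
    have e : ∀ w, σ (σ⁻¹ w) = w := fun w => σ.apply_symm_apply w
    rw [← h, e, e]

theorem T_mem (hp : p % 4 = 3) (a : (ZMod p)ˣ) (b : ZMod p) : T hp a b ∈ S hp := by
  intro u v
  rw [T_apply, T_apply]
  simp

/-- Functions that depend on the first coordinate only and have sum zero. -/
def W : Submodule ℝ (ZMod p × Bool → ℝ) where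
  carrier := {f | (∀ u v, u.1 = v.1 → f u = f v) ∧ ∑ x, f (x, false) = 0}
  zero_mem' := ⟨fun _ _ _ => rfl, by simp⟩
  add_mem' := by
    rintro f g ⟨h1, h2⟩ ⟨h3, h4⟩
    refine ⟨fun u v h => ?_, ?_⟩
    · rw [Pi.add_apply, Pi.add_apply, h1 u v h, h3 u v h]
    · simp only [Pi.add_apply, Finset.sum_add_distrib, h2, h4, add_zero]
  smul_mem' := by
    rintro c f ⟨h1, h2⟩
    refine ⟨fun u v h => ?_, ?_⟩
    · rw [Pi.smul_apply, Pi.smul_apply, h1 u v h]
    · simp only [Pi.smul_apply, smul_eq_mul, ← Finset.mul_sum, h2, mul_zero]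

theorem mem_W (f : ZMod p × Bool → ℝ) :
    f ∈ (W : Submodule ℝ (ZMod p × Bool → ℝ)) ↔
      (∀ u v, u.1 = v.1 → f u = f v) ∧ ∑ x, f (x, false) = 0 := Iff.rfl

theorem arcTransitive (hp : p % 4 = 3) : ArcTransitive (S hp) := by
  rintro ⟨x, i⟩ ⟨y, j⟩ ⟨z, k⟩ ⟨w, l⟩ h1 h2
  rw [adj_iff] at h1 h2
  simp only at h1 h2
  have hy : y - x ≠ 0 := by
    intro h
    have := h1.2
    rw [h] at this
    have h0 : χ (0 : ZMod p) = 0 := by simp [χ]
    rw [h0] at this
    cases i <;> simp [ε] at this
  have hw : w - z ≠ 0 := by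
    intro h
    have := h2.2
    rw [h] at this
    have h0 : χ (0 : ZMod p) = 0 := by simp [χ]
    rw [h0] at this
    cases k <;> simp [ε] at this
  let a : (ZMod p)ˣ := Units.mk0 ((w - z) / (y - x)) (div_ne_zero hw hy)
  have ha : (a : ZMod p) * (y - x) = w - z := by
    show (w - z) / (y - x) * (y - x) = w - z
    field_simp
  have hχ : χ (a : ZMod p) * ε i = ε k := by
    rw [← h1.2, ← h2.2, ← χ_mul, ha]
  have hk : xor i (flip a) = k := by
    have h3 := ε_xor i a
    rw [hχ] at h3
    revert h3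
    cases (xor i (flip a)) <;> cases k <;> simp [ε]
  refine ⟨T hp a (z - a * x), T_mem hp _ _, ?_, ?_⟩
  · rw [T_apply]
    exact Prod.ext (by simp) hk
  · rw [T_apply]
    refine Prod.ext ?_ ?_
    · simp only
      have : (a : ZMod p) * y + (z - a * x) = a * (y - x) + z := by ring
      rw [this, ha]; ring
    · simp only
      rw [← hk] at h2
      revert h2 h1
      cases i <;> cases j <;> cases (flip a) <;> cases l <;> simp

theorem sum_units (g : ZMod p → ℝ) : ∑ x, g x = g 0 + ∑ a : (ZMod p)ˣ, g a := by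
  rw [← Finset.add_sum_erase Finset.univ g (Finset.mem_univ 0)]
  congr 1
  symm
  refine Finset.sum_bij (fun a _ => (a : ZMod p)) ?_ ?_ ?_ ?_
  · intro a _
    exact Finset.mem_erase.2 ⟨a.ne_zero, Finset.mem_univ _⟩
  · intro a _ b _ h
    exact Units.ext h
  · intro b hb
    exact ⟨Units.mk0 b (Finset.mem_erase.1 hb).1, Finset.mem_univ _, rfl⟩
  · intro a _
    rfl

theorem invariant_W (hp : p % 4 = 3) : Invariant (S hp) W := by
  intro σ hσ f hf
  rw [mem_W] at hf ⊢
  have hσ' := (S hp).inv_mem hσ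
  refine ⟨fun u v h => hf.1 _ _ ((hσ' u v).2 h), ?_⟩
  have h2 : ∀ g : ZMod p × Bool → ℝ, (∀ u v, u.1 = v.1 → g u = g v) →
      ∑ u, g u = 2 * ∑ x, g (x, false) := by
    intro g hg
    rw [Fintype.sum_prod_type, Finset.mul_sum]
    refine Finset.sum_congr rfl fun x _ => ?_
    rw [Fintype.sum_bool, hg (x, true) (x, false) rfl]
    ring
  have h3 : ∑ u, act σ f u = ∑ u, f u := by
    exact Equiv.sum_comp σ.symm.toEquiv f
  have h4 := h2 (act σ f) (fun u v h => hf.1 _ _ ((hσ' u v).2 h))
  have h5 := h2 f hf.1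
  rw [h3, h5, hf.2] at h4
  linarith

theorem irreducible_W (hp : p % 4 = 3) : Irreducible (S hp) W := by
  have hp1 : (1 : ZMod p) ≠ 0 := one_ne_zero
  refine ⟨?_, invariant_W hp, ?_⟩
  · intro h
    have : (fun u : ZMod p × Bool => (if u.1 = 0 then (1 : ℝ) else 0) - if u.1 = 1 then 1 else 0)
        ∈ (W : Submodule ℝ (ZMod p × Bool → ℝ)) := by
      rw [mem_W]
      refine ⟨fun u v h => by simp only [h], ?_⟩
      simp
    rw [h, Submodule.mem_bot] at this
    have := congrFun this (0, false)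
    simp at this
  · intro U hU hinv
    by_cases hbot : U = ⊥
    · exact Or.inl hbot
    right
    refine le_antisymm hU ?_
    obtain ⟨f, hfU, hf0⟩ := (Submodule.ne_bot_iff U).1 hbot
    have hfW := (mem_W f).1 (hU hfU)
    -- a vertex where `f` does not vanish
    obtain ⟨⟨x0, i0⟩, hx0⟩ : ∃ u, f u ≠ 0 := by
      by_contra hc
      push Not at hc
      exact hf0 (funext hc)
    have hx0' : f (x0, false) ≠ 0 := by
      rw [← hfW.1 (x0, i0) (x0, false) rfl]; exact hx0
    -- translate it to the origin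
    let f' := act (T hp 1 (-x0)) f
    have hf'U : f' ∈ U := hinv _ (T_mem hp _ _) _ hfU
    have hf'W := (mem_W f').1 (hU hf'U)
    have hf'0 : f' (0, false) ≠ 0 := by
      have : f' (0, false) = f (x0, false) := by
        refine hfW.1 _ _ ?_
        rw [T_symm_fst]
        simp only [inv_one, Units.val_one, one_mul, zero_sub, neg_neg]
      rw [this]; exact hx0'
    let c := f' (0, false)
    -- average over the stabilizer of the origin
    let h := ∑ a : (ZMod p)ˣ, act (T hp a 0) f'
    have hhU : h ∈ U := Submodule.sum_mem _ fun a _ => hinv _ (T_mem hp _ _) _ hf'U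
    have hh : ∀ u : ZMod p × Bool, h u = c * ((if u.1 = 0 then (p : ℝ) else 0) - 1) := by
      rintro ⟨x, i⟩
      have e1 : h (x, i) = ∑ a : (ZMod p)ˣ, f' (↑(a⁻¹) * x, false) := by
        show (∑ a : (ZMod p)ˣ, act (T hp a 0) f') (x, i) = _
        rw [Finset.sum_apply]
        refine Finset.sum_congr rfl fun a _ => ?_
        refine hf'W.1 _ _ ?_
        rw [T_symm_fst]
        simp only [sub_zero]
      rw [e1]
      by_cases hx : x = 0
      · subst hx
        have e0 : ∀ a : (ZMod p)ˣ, f' (((a⁻¹ : (ZMod p)ˣ) : ZMod p) * 0, false) = c := by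
          intro a
          rw [mul_zero]
        rw [Finset.sum_congr rfl fun a _ => e0 a, Finset.sum_const, if_pos rfl]
        rw [Finset.card_univ, ZMod.card_units_eq_totient,
          Nat.totient_prime (Fact.out : p.Prime), nsmul_eq_mul,
          Nat.cast_sub (Fact.out : p.Prime).one_le, Nat.cast_one]
        ring
      · rw [if_neg hx]
        have e2 : ∑ a : (ZMod p)ˣ, f' (↑(a⁻¹) * x, false) = ∑ a : (ZMod p)ˣ, f' (↑a, false) := by
          have := Equiv.sum_comp ((Equiv.inv (ZMod p)ˣ).trans (Equiv.mulRight (Units.mk0 x hx)))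
            (fun a : (ZMod p)ˣ => f' (↑a, false))
          rw [← this]
          refine Finset.sum_congr rfl fun a _ => ?_
          show _ = f' (((a⁻¹ * Units.mk0 x hx : (ZMod p)ˣ) : ZMod p), false)
          rw [Units.val_mul, Units.val_mk0]
        have e3 := sum_units (fun x => f' (x, false))
        rw [hf'W.2] at e3
        rw [e2]
        simp only [c]
        linarith
    -- all translates
    have htr : ∀ b : ZMod p, (fun u : ZMod p × Bool => (if u.1 = b then (p : ℝ) else 0) - 1) ∈ U := by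
      intro b
      have h1 : act (T hp 1 b) (c⁻¹ • h) ∈ U := hinv _ (T_mem hp _ _) _ (U.smul_mem _ hhU)
      have h2 : act (T hp 1 b) (c⁻¹ • h) =
          (fun u : ZMod p × Bool => (if u.1 = b then (p : ℝ) else 0) - 1) := by
        funext u
        show c⁻¹ * h ((T hp 1 b).symm u) = _
        rw [hh, T_symm_fst, ← mul_assoc, inv_mul_cancel₀ hf'0, one_mul]
        simp [sub_eq_zero]
      rwa [h2] at h1
    intro w hw
    have hw' := (mem_W w).1 hw
    have hpR : (p : ℝ) ≠ 0 := Nat.cast_ne_zero.2 (Fact.out : p.Prime).ne_zero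
    have : w = (p : ℝ)⁻¹ • ∑ b : ZMod p, w (b, false) •
        (fun u : ZMod p × Bool => (if u.1 = b then (p : ℝ) else 0) - 1) := by
      funext u
      rw [Pi.smul_apply, Finset.sum_apply]
      simp only [Pi.smul_apply, smul_eq_mul, mul_sub, mul_one, Finset.sum_sub_distrib, hw'.2,
        mul_ite, mul_zero, Finset.sum_ite_eq, Finset.mem_univ, if_true, sub_zero]
      rw [hw'.1 (u.1, false) u rfl]
      field_simp
    rw [this]
    exact U.smul_mem _ (Submodule.sum_mem _ fun b _ => U.smul_mem _ (htr b))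

theorem connected (hp : p % 4 = 3) (h7 : 7 ≤ p) : (G hp).Connected := by
  have hcast : ∀ n : ℕ, 0 < n → n < p → (n : ZMod p) ≠ 0 := by
    intro n h0 h1 h
    rw [ZMod.natCast_eq_zero_iff] at h
    exact absurd (Nat.le_of_dvd h0 h) (by omega)
  have h3 : (3 : ZMod p) ≠ 0 := by exact_mod_cast hcast 3 (by norm_num) (by omega)
  have h2 : (2 : ZMod p) ≠ 0 := by exact_mod_cast hcast 2 (by norm_num) (by omega)
  have hχ4 : χ (4 : ZMod p) = 1 := by
    rw [show (4 : ZMod p) = 2 * 2 by norm_num, χ_mul]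
    rcases χ_unit (Units.mk0 (2 : ZMod p) h2) with h | h
    · rw [Units.val_mk0] at h; rw [h]; norm_num
    · rw [Units.val_mk0] at h; rw [h]; norm_num
  have step : ∀ x : ZMod p, (G hp).Reachable (x, false) (x + 3, false) := by
    intro x
    have a1 : (G hp).Adj (x, false) (x + 4, true) := by
      rw [adj_iff]
      refine ⟨by simp, ?_⟩
      simp only
      rw [show x + 4 - x = 4 by ring, hχ4]; rfl
    have a2 : (G hp).Adj (x + 4, true) (x + 3, false) := by
      rw [adj_iff]
      refine ⟨by simp, ?_⟩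
      simp only
      rw [show x + 3 - (x + 4) = -1 by ring, χ_neg_one hp]; rfl
    exact a1.reachable.trans a2.reachable
  have steps : ∀ (n : ℕ) (x : ZMod p), (G hp).Reachable (x, false) (x + n * 3, false) := by
    intro n
    induction n with
    | zero =>
      intro x
      rw [Nat.cast_zero, zero_mul, add_zero]
    | succ n ih =>
      intro x
      have := (ih x).trans (step (x + n * 3))
      rwa [show x + n * 3 + 3 = x + (n + 1 : ℕ) * 3 by push_cast; ring] at this
  have side : ∀ x : ZMod p, ∀ i, (G hp).Reachable (0, false) (x, i) := by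
    have h0 : ∀ x : ZMod p, (G hp).Reachable (0, false) (x, false) := by
      intro x
      have := steps (x / 3).val 0
      rw [ZMod.natCast_val, ZMod.cast_id', id, div_mul_cancel₀ _ h3, zero_add] at this
      exact this
    intro x i
    cases i with
    | false => exact h0 x
    | true =>
      refine (h0 (x - 1)).trans (Adj.reachable ?_)
      rw [adj_iff]
      refine ⟨by simp, ?_⟩
      simp only
      rw [show x - (x - 1) = 1 by ring, χ_one]; rfl
  rw [connected_iff]
  refine ⟨fun u v => (side u.1 u.2).symm.trans (side v.1 v.2), ⟨(0, false)⟩⟩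

end

/-- For every prime `p ≥ 7` with `p ≡ 3` modulo `4` there is a connected graph on `2 p` vertices,
an arc-transitive subgroup of its automorphism group and an irreducible subspace that is
contained in no eigenspace of the adjacency matrix. -/
theorem result : ∀ p : ℕ, p.Prime → p % 4 = 3 → 7 ≤ p →
    ∃ (V : Type) (_ : Fintype V) (_ : DecidableEq V) (H : SimpleGraph V)
      (_ : DecidableRel H.Adj) (S : Subgroup (H ≃g H)) (W : Submodule ℝ (V → ℝ)),
      Fintype.card V = 2 * p ∧ H.Connected ∧ ArcTransitive S ∧ Irreducible S W ∧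
      ∀ t : ℝ, ¬ W ≤ Module.End.eigenspace (Matrix.toLin' (H.adjMatrix ℝ)) t := by
  classical
  intro p hprime hp h7
  have : Fact p.Prime := ⟨hprime⟩
  refine ⟨ZMod p × Bool, inferInstance, inferInstance, G hp, Classical.decRel _, S hp, W, ?_,
    connected hp h7, arcTransitive hp, irreducible_W hp, ?_⟩
  · rw [Fintype.card_prod, ZMod.card, Fintype.card_bool]; ring
  intro t ht
  let f : ZMod p × Bool → ℝ :=
    fun u => (if u.1 = 0 then (1 : ℝ) else 0) - if u.1 = 1 then 1 else 0
  have hfW : f ∈ (W : Submodule ℝ (ZMod p × Bool → ℝ)) := by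
    rw [mem_W]
    refine ⟨fun u v h => by simp only [f, h], ?_⟩
    simp [f]
  have hf := ht hfW
  rw [Module.End.mem_eigenspace_iff, Matrix.toLin'_apply] at hf
  have key : ∀ i : Bool, ((G hp).adjMatrix ℝ).mulVec f (0, i) =
      ∑ y : ZMod p, if χ y = ε i then f (y, false) else 0 := by
    intro i
    rw [Matrix.mulVec, dotProduct, Fintype.sum_prod_type]
    refine Finset.sum_congr rfl fun y _ => ?_
    rw [Fintype.sum_bool]
    simp only [adjMatrix_apply, adj_iff, sub_zero]
    have : f (y, true) = f (y, false) := rfl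
    rw [this]
    cases i <;> simp
  have h1 := congrFun hf (0, false)
  have h2 := congrFun hf (0, true)
  rw [key] at h1 h2
  have hχ0 : χ (0 : ZMod p) = 0 := by simp [χ]
  have v1 : (∑ y : ZMod p, if χ y = ε false then f (y, false) else 0) = -1 := by
    rw [Finset.sum_eq_single (1 : ZMod p)]
    · simp [χ_one, ε, f]
    · intro b _ hb
      by_cases h0 : b = 0
      · subst h0; simp [hχ0, ε]
      · simp [f, h0, hb]
    · intro h; exact absurd (Finset.mem_univ _) h
  have v2 : (∑ y : ZMod p, if χ y = ε true then f (y, false) else 0) = 0 := by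
    refine Finset.sum_eq_zero fun b _ => ?_
    by_cases h0 : b = 0
    · subst h0; simp [hχ0, ε]
    · by_cases hb : b = 1
      · subst hb; simp [χ_one, ε]
      · simp [f, h0, hb]
  rw [v1] at h1
  rw [v2] at h2
  have e1 : f (0, false) = 1 := by simp [f]
  have e2 : f (0, true) = 1 := by simp [f]
  simp only [Pi.smul_apply, smul_eq_mul, e1, e2] at h1 h2
  linarith

end Pool.Agent.Results.MP_63f2bb_co.PaleyIncidence
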